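import Pool.Agent.X185.RH.Vis

set_option autoImplicit false

/-! MP_9c739d_al: a non-elementary convergence action of the free group `F_3` with a
Cannon-Thurston map for which the preimage of the non-conical limit points has positive Hausdorff
dimension. The space is the quotient of `∂F_3` in which two points are identified when from their
first difference on both use only the letters `a`, `b` and inverses. -/

namespace Pool.Agent.Results.MP_9c739d_al.PositiveDimension

open Pool.Agent.H322R3.Hyp Pool.Agent.X185.CT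

theorem result : ∃ (Z : Type) (_ : MetricSpace Z) (_ : CompactSpace Z)
    (_ : MulAction (FreeGroup (Fin 3)) Z) (_ : ContinuousConstSMul (FreeGroup (Fin 3)) Z),
    IsConvergenceAction (FreeGroup (Fin 3)) Z ∧
    (∃ x y z : Z, x ∈ limSet (FreeGroup (Fin 3)) Z ∧ y ∈ limSet (FreeGroup (Fin 3)) Z ∧
      z ∈ limSet (FreeGroup (Fin 3)) Z ∧ x ≠ y ∧ y ≠ z ∧ x ≠ z) ∧
    ∃ f : Bdy 3 → Z, (∀ (g : FreeGroup (Fin 3)) (p : Bdy 3), f (g • p) = g • f p) ∧
      ∀ (a : ℝ) (ha : 1 < a),
        letI := visMetric 3 a ha
        Continuous f ∧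
        0 < dimH {p : Bdy 3 | f p ∈ limSet (FreeGroup (Fin 3)) Z ∧
          ¬ Conical (FreeGroup (Fin 3)) (f p)} := by
  refine ⟨Z, inferInstance, inferInstance, inferInstance, inferInstance, conv_action,
    ⟨z0, πZ (cst (2, true)), πZ (cst (2, false)), limSet_all _, limSet_all _, limSet_all _,
      (ne_of_c true).symm, ne_c, (ne_of_c false).symm⟩, πZ, fun g p => (πZ_smul g p).symm,
    fun a ha => ⟨continuous_πZ a ha, ?_⟩⟩
  letI := visMetric 3 a ha
  refine lt_of_lt_of_le (posW_dim a ha) (dimH_mono ?_)
  intro p hp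
  refine ⟨limSet_all _, ?_⟩
  rw [posW_z0 hp]
  exact z0_not_conical

end Pool.Agent.Results.MP_9c739d_al.PositiveDimension
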